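import Mathlib
import Pool.Agent.Helper94.YF.M_RAT

/-!
Pure lemma for the square-free theorem on integral fusion categories (step (4), local units).
-/

namespace Pool.Agent.Helper4.SQ

open Finset

/-- A nonzero algebraic integer all of whose conjugates are among a finite family with nonzero
product permuted by the automorphisms: the product has absolute value at least `1`. -/
theorem one_le_norm_prod {G : Type} [Fintype G] (f : G → ℂ) (hint : ∀ c, IsIntegral ℤ (f c))
    (hne : ∀ c, f c ≠ 0)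
    (hgal : ∀ σ : ℂ ≃+* ℂ, ∃ e : G ≃ G, ∀ c, σ (f c) = f (e c)) :
    1 ≤ ∏ c, ‖f c‖ := by
  classical
  have hP : IsIntegral ℤ (∏ c, f c) := IsIntegral.prod _ fun c _ => hint c
  obtain ⟨m, hm⟩ := Helper94.YF.hRAT'.1 (∏ c, f c) hP (by
    intro σ
    obtain ⟨e, he⟩ := hgal σ
    rw [map_prod]
    simp only [he]
    exact Equiv.prod_comp e f)
  have hPne : ∏ c, f c ≠ 0 := Finset.prod_ne_zero_iff.mpr fun c _ => hne c
  have hmne : m ≠ 0 := by
    rintro rfl
    exact hPne (by rw [← hm]; simp)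
  rw [← norm_prod, ← hm]
  simp only [Complex.norm_intCast]
  exact_mod_cast Int.one_le_abs hmne

/-- Arithmetic-geometric mean: nonnegative numbers with product at least `1` have sum of squares
at least their number. -/
theorem card_le_sum_sq {G : Type} [Fintype G] (f : G → ℝ)
    (h1 : 1 ≤ ∏ c, f c) : (Fintype.card G : ℝ) ≤ ∑ c, f c ^ 2 := by
  classical
  have hlog : ∀ c, 1 + Real.log (f c ^ 2) ≤ f c ^ 2 := by
    intro c
    by_cases h : f c = 0
    · exfalso
      have : ∏ c, f c = 0 := Finset.prod_eq_zero (Finset.mem_univ c) h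
      linarith
    · have hpos : 0 < f c ^ 2 := by positivity
      linarith [Real.log_le_sub_one_of_pos hpos]
  have hne : ∀ c, f c ≠ 0 := by
    intro c h
    have : ∏ c, f c = 0 := Finset.prod_eq_zero (Finset.mem_univ c) h
    linarith
  have hs : ∑ c, (1 + Real.log (f c ^ 2)) ≤ ∑ c, f c ^ 2 := Finset.sum_le_sum fun c _ => hlog c
  have hl : 0 ≤ ∑ c, Real.log (f c ^ 2) := by
    rw [← Real.log_prod (fun c _ => pow_ne_zero 2 (hne c)), Finset.prod_pow]
    exact Real.log_nonneg (one_le_pow₀ h1)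
  rw [Finset.sum_add_distrib] at hs
  simp only [Finset.sum_const, Finset.card_univ, nsmul_eq_mul, mul_one] at hs
  linarith

/-- Local units.  `η j k` algebraic integers, permuted by the automorphisms of `ℂ` through an
action of a finite group `G` on the second index (all elements of `G` occurring), with
`∑ j, η j k = e`, `e ≠ 0`, and weighted sum of squares at most the weighted number of `k`: then for
each `k` exactly one `η j k` is different from `0`, and it is `e`. -/
theorem local_units {J K G : Type} [Fintype J] [Fintype K] [Group G] [Fintype G] [MulAction G K]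
    (w : K → ℝ) (hw : ∀ k, 0 < w k) (hwG : ∀ (c : G) k, w (c • k) = w k) (η : J → K → ℂ)
    (hint : ∀ j k, IsIntegral ℤ (η j k))
    (hgal : ∀ σ : ℂ ≃+* ℂ, ∃ c : G, ∀ j k, σ (η j k) = η j (c • k))
    (hex : ∀ c : G, ∃ σ : ℂ ≃+* ℂ, ∀ j k, σ (η j k) = η j (c • k))
    (e : ℂ) (he : e ≠ 0) (hsum : ∀ k, ∑ j, η j k = e)
    (hsq : ∑ k, w k * ∑ j, ‖η j k‖ ^ 2 ≤ ∑ k, w k) :
    ∀ k, ∃ j, η j k = e ∧ ∀ j', j' ≠ j → η j' k = 0 := by
  classical
  have hGpos : (0 : ℝ) < Fintype.card G := by exact_mod_cast Fintype.card_pos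
  -- an orbit estimate
  have horb : ∀ j k, η j k ≠ 0 → (Fintype.card G : ℝ) ≤ ∑ c : G, ‖η j (c • k)‖ ^ 2 := by
    intro j k hne
    refine card_le_sum_sq _ ?_
    refine one_le_norm_prod (fun c : G => η j (c • k)) (fun c => hint _ _) ?_ ?_
    · intro c h
      obtain ⟨σ, hσ⟩ := hex c
      have h1 := hσ j k
      rw [h] at h1
      exact hne (by simpa using h1)
    · intro σ
      obtain ⟨c, hc⟩ := hgal σ
      refine ⟨Equiv.mulLeft c, fun c' => ?_⟩
      simp only [Equiv.coe_mulLeft]
      rw [hc, ← mul_smul]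
  -- the number of nonzero entries
  set ν : K → ℝ := fun k => ((univ.filter fun j => η j k ≠ 0).card : ℝ) with hν
  have hν1 : ∀ k, 1 ≤ ν k := by
    intro k
    have : (univ.filter fun j => η j k ≠ 0).Nonempty := by
      by_contra h
      rw [Finset.not_nonempty_iff_eq_empty, Finset.filter_eq_empty_iff] at h
      have h0 : ∑ j, η j k = 0 := Finset.sum_eq_zero fun j hj => by
        have := h hj
        push Not at this
        exact this
      exact he (by rw [← hsum k, h0])
    have hc := Finset.card_pos.mpr this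
    simp only [hν]
    exact_mod_cast hc
  have hrow : ∀ k, (Fintype.card G : ℝ) * ν k ≤ ∑ c : G, ∑ j, ‖η j (c • k)‖ ^ 2 := by
    intro k
    rw [Finset.sum_comm]
    have h1 : ∑ j ∈ univ.filter (fun j => η j k ≠ 0), ∑ c : G, ‖η j (c • k)‖ ^ 2 ≤
        ∑ j, ∑ c : G, ‖η j (c • k)‖ ^ 2 :=
      Finset.sum_le_sum_of_subset_of_nonneg (Finset.filter_subset _ _)
        fun j _ _ => Finset.sum_nonneg fun c _ => by positivity
    have h2 : ∑ _j ∈ univ.filter (fun j => η j k ≠ 0), (Fintype.card G : ℝ) ≤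
        ∑ j ∈ univ.filter (fun j => η j k ≠ 0), ∑ c : G, ‖η j (c • k)‖ ^ 2 :=
      Finset.sum_le_sum fun j hj => horb j k (Finset.mem_filter.mp hj).2
    rw [Finset.sum_const, nsmul_eq_mul] at h2
    simp only [hν]
    linarith [mul_comm (Fintype.card G : ℝ) ((univ.filter fun j => η j k ≠ 0).card : ℝ)]
  -- averaging
  have havg : ∀ c : G, ∑ k, w k * ∑ j, ‖η j (c • k)‖ ^ 2 = ∑ k, w k * ∑ j, ‖η j k‖ ^ 2 := by
    intro c
    have := Equiv.sum_comp (MulAction.toPerm c) fun k => w k * ∑ j, ‖η j k‖ ^ 2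
    rw [← this]
    refine Finset.sum_congr rfl fun k _ => ?_
    simp only [MulAction.toPerm_apply, hwG]
  have htot : ∑ k, w k * ((Fintype.card G : ℝ) * ν k) ≤
      (Fintype.card G : ℝ) * ∑ k, w k := by
    calc ∑ k, w k * ((Fintype.card G : ℝ) * ν k)
        ≤ ∑ k, w k * ∑ c : G, ∑ j, ‖η j (c • k)‖ ^ 2 :=
          Finset.sum_le_sum fun k _ => mul_le_mul_of_nonneg_left (hrow k) (hw k).le
      _ = ∑ c : G, ∑ k, w k * ∑ j, ‖η j (c • k)‖ ^ 2 := by
          rw [Finset.sum_comm]
          refine Finset.sum_congr rfl fun k _ => ?_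
          rw [Finset.mul_sum]
      _ = (Fintype.card G : ℝ) * ∑ k, w k * ∑ j, ‖η j k‖ ^ 2 := by
          simp only [havg, Finset.sum_const, Finset.card_univ, nsmul_eq_mul]
      _ ≤ (Fintype.card G : ℝ) * ∑ k, w k := mul_le_mul_of_nonneg_left hsq hGpos.le
  have hle : ∑ k, w k * ν k ≤ ∑ k, w k * 1 := by
    have h1 : ∑ k, w k * ((Fintype.card G : ℝ) * ν k) =
        (Fintype.card G : ℝ) * ∑ k, w k * ν k := by
      rw [Finset.mul_sum]
      exact Finset.sum_congr rfl fun k _ => by ring
    rw [h1] at htot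
    simp only [mul_one]
    exact le_of_mul_le_mul_left htot hGpos
  have heq : ∀ k, ν k = 1 := by
    intro k
    by_contra hk
    have hgt : 1 < ν k := lt_of_le_of_ne (hν1 k) (Ne.symm hk)
    have : ∑ k, w k * 1 < ∑ k, w k * ν k :=
      Finset.sum_lt_sum (fun i _ => mul_le_mul_of_nonneg_left (hν1 i) (hw i).le)
        ⟨k, Finset.mem_univ k, mul_lt_mul_of_pos_left hgt (hw k)⟩
    linarith
  intro k
  have hk : (univ.filter fun j => η j k ≠ 0).card = 1 := by
    have := heq k
    simp only [hν] at this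
    exact_mod_cast this
  obtain ⟨j, hj⟩ := Finset.card_eq_one.mp hk
  have hz : ∀ j', j' ≠ j → η j' k = 0 := by
    intro j' hj'
    by_contra h
    have : j' ∈ univ.filter fun j => η j k ≠ 0 := by simp [h]
    rw [hj] at this
    exact hj' (Finset.mem_singleton.mp this)
  refine ⟨j, ?_, hz⟩
  rw [← hsum k]
  exact (Finset.sum_eq_single j (fun j' _ hj' => hz j' hj') (by simp)).symm

end Pool.Agent.Helper4.SQ
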